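import Pool.Agent.Y731.CM.Mert

set_option autoImplicit false

namespace Pool.Agent.Y731.CM

open Finset

/-- The main term. -/
noncomputable def GG (k : ℕ) (t : ℝ) : ℝ := Real.log k * Real.log (Real.log t) - Real.log t

theorem A_succ (n : ℕ) : A (n + 1) = A n + if (n + 1).Prime then Real.log ((n + 1 : ℕ) : ℝ) / ((n + 1 : ℕ) : ℝ) else 0 := by
  unfold A
  rw [Finset.range_add_one (n := n + 1), Finset.filter_insert]
  split_ifs with h
  · rw [Finset.sum_insert (by simp)]
    ring
  · simp

theorem DD_lower : ∃ C : ℝ, 0 ≤ C ∧ ∀ k y : ℕ, 2 ≤ y → y ≤ k → k ≤ y ^ 2 →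
    GG k ((k : ℝ) + 1) - GG k ((y : ℝ) + 1) - C ≤
      ∑ p ∈ (Ioc y k).filter Nat.Prime, Real.log ((k : ℝ) / p) / p := by
  obtain ⟨C1, hC1, hlow⟩ := mert_lower
  set C := max C1 (Real.log 4) with hC
  have hC0 : 0 ≤ C := hC1.trans (le_max_left _ _)
  refine ⟨2 * C, by linarith, ?_⟩
  intro k y hy hyk hky
  have hk0 : (0 : ℝ) < k := by
    have : 0 < k := by omega
    exact_mod_cast this
  set g : ℕ → ℝ := fun n => Real.log k / Real.log n - 1 with hg
  set E : ℕ → ℝ := fun n => A n - Real.log n + C with hE
  have hE0 : ∀ n, 1 ≤ n → 0 ≤ E n := by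
    intro n hn
    have := hlow n hn
    have := le_max_left C1 (Real.log 4)
    simp only [hE]
    linarith
  have hE1 : ∀ n, 1 ≤ n → E n ≤ 2 * C := by
    intro n hn
    have := mert_upper n hn
    have := le_max_right C1 (Real.log 4)
    simp only [hE]
    linarith
  have hlogpos : ∀ n : ℕ, 2 ≤ n → 0 < Real.log n := by
    intro n hn
    apply Real.log_pos
    exact_mod_cast (by omega : 1 < n)
  have claim : ∀ n, y ≤ n → n ≤ k →
      GG k ((n : ℝ) + 1) - GG k ((y : ℝ) + 1) + g n * E n - 2 * C * g y ≤
        ∑ p ∈ (Ioc y n).filter Nat.Prime, Real.log ((k : ℝ) / p) / p := by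
    intro n hn
    induction n, hn using Nat.le_induction with
    | base =>
      intro _
      have h1 := hE1 y (by omega)
      have h2 : 0 ≤ g y := by
        simp only [hg]
        have h3 : Real.log y ≤ Real.log k := by
          apply Real.log_le_log
          · exact_mod_cast (by omega : 0 < y)
          · exact_mod_cast hyk
        have := (one_le_div (hlogpos y hy)).2 h3
        linarith
      simp only [Finset.Ioc_self, Finset.filter_empty, Finset.sum_empty]
      nlinarith
    | succ n hn ih =>
      intro hnk
      have ih := ih (by omega)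
      have hn2 : 2 ≤ n := by omega
      have hinc : ∑ p ∈ (Ioc y (n + 1)).filter Nat.Prime, Real.log ((k : ℝ) / p) / p =
          ∑ p ∈ (Ioc y n).filter Nat.Prime, Real.log ((k : ℝ) / p) / p +
            g (n + 1) * (A (n + 1) - A n) := by
        have hins : Ioc y (n + 1) = insert (n + 1) (Ioc y n) := by
          ext m
          simp only [Finset.mem_Ioc, Finset.mem_insert]
          omega
        rw [hins, Finset.filter_insert, A_succ]
        split_ifs with h
        · rw [Finset.sum_insert (by simp)]
          have hl := (hlogpos (n + 1) (by omega)).ne'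
          have hn1 : ((n + 1 : ℕ) : ℝ) ≠ 0 := by positivity
          simp only [hg]
          rw [Real.log_div hk0.ne' hn1]
          field_simp
          ring
        · simp
      rw [hinc]
      have hEd : A (n + 1) - A n = (Real.log ((n + 1 : ℕ) : ℝ) - Real.log n) + (E (n + 1) - E n) := by
        simp only [hE]
        ring
      rw [hEd]
      -- positivity facts
      have hs0 := hlogpos n hn2
      have hs1 := hlogpos (n + 1) (by omega)
      have hs2 := hlogpos (n + 2) (by omega)
      have hn0 : (0 : ℝ) < n := by exact_mod_cast (by omega : 0 < n)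
      have hgn1 : 0 ≤ g (n + 1) := by
        simp only [hg]
        have h3 : Real.log ((n + 1 : ℕ) : ℝ) ≤ Real.log k := by
          apply Real.log_le_log
          · positivity
          · exact_mod_cast hnk
        have := (one_le_div hs1).2 h3
        linarith
      have hmono : g (n + 1) ≤ g n := by
        simp only [hg]
        have h3 : Real.log n ≤ Real.log ((n + 1 : ℕ) : ℝ) := by
          apply Real.log_le_log hn0
          push_cast
          linarith
        have h4 : 0 ≤ Real.log k := Real.log_natCast_nonneg k
        have := div_le_div_of_nonneg_left h4 hs0 h3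
        linarith
      have hEn := hE0 n (by omega)
      -- concavity
      have hconc1 : Real.log ((n + 2 : ℕ) : ℝ) - Real.log ((n + 1 : ℕ) : ℝ) ≤
          Real.log ((n + 1 : ℕ) : ℝ) - Real.log n := by
        have hh1 : ((n + 2 : ℕ) : ℝ) ≠ 0 := by positivity
        have hh2 : ((n + 1 : ℕ) : ℝ) ≠ 0 := by positivity
        rw [← Real.log_div hh1 hh2, ← Real.log_div hh2 hn0.ne']
        apply Real.log_le_log (by positivity)
        rw [div_le_div_iff₀ (by positivity) hn0]
        push_cast
        nlinarith
      have hconc2 : GG k (((n + 1 : ℕ) : ℝ) + 1) - GG k ((n : ℝ) + 1) ≤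
          g (n + 1) * (Real.log ((n + 2 : ℕ) : ℝ) - Real.log ((n + 1 : ℕ) : ℝ)) := by
        have e1 : ((n + 1 : ℕ) : ℝ) + 1 = ((n + 2 : ℕ) : ℝ) := by push_cast; ring
        have e2 : (n : ℝ) + 1 = ((n + 1 : ℕ) : ℝ) := by push_cast; ring
        rw [e1, e2]
        unfold GG
        simp only [hg]
        set s := Real.log ((n + 1 : ℕ) : ℝ) with hs
        set s' := Real.log ((n + 2 : ℕ) : ℝ) with hs'
        have h4 : 0 ≤ Real.log k := Real.log_natCast_nonneg k
        have h5 : Real.log s' - Real.log s ≤ (s' - s) / s := by
          rw [← Real.log_div hs2.ne' hs1.ne']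
          have h6 := Real.log_le_sub_one_of_pos (div_pos hs2 hs1)
          have h7 : s' / s - 1 = (s' - s) / s := by
            field_simp
          linarith
        have h6 : Real.log k * (Real.log s' - Real.log s) ≤ Real.log k * ((s' - s) / s) :=
          mul_le_mul_of_nonneg_left h5 h4
        have h7 : (Real.log k / s - 1) * (s' - s) = Real.log k * ((s' - s) / s) - (s' - s) := by
          field_simp
        rw [h7]
        linarith
      have h8 := mul_le_mul_of_nonneg_left hconc1 hgn1
      have h9 := mul_le_mul_of_nonneg_right hmono hEn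
      nlinarith
  have h1 := claim k hyk le_rfl
  have hgk : g k = 0 := by
    simp only [hg]
    rw [div_self (hlogpos k (by omega)).ne']
    ring
  have hgy : g y ≤ 1 := by
    simp only [hg]
    have h3 : Real.log k ≤ 2 * Real.log y := by
      have h4 : (k : ℝ) ≤ (y : ℝ) ^ 2 := by exact_mod_cast hky
      have h5 := Real.log_le_log hk0 h4
      rwa [Real.log_pow] at h5
    have : Real.log k / Real.log y ≤ 2 := by
      rw [div_le_iff₀ (hlogpos y hy)]
      exact h3
    linarith
  rw [hgk, zero_mul] at h1
  nlinarith

end Pool.Agent.Y731.CM
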