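import Pool.Agent.Y731.CM.Sum
import Pool.Agent.Y731.CM.Ind

set_option autoImplicit false

namespace Pool.Agent.Y731.CM

open Finset hiding val
open Pool.Agent.Results.MP_cc5630_nt.Theta

theorem upper_asymp (B : ℝ) (hB : 3 / 2 - Real.log 2 < B) :
    ∃ K : ℕ, ∀ k : ℕ, K ≤ k → M k ≤ B * Real.log k := by
  obtain ⟨C, hC0, hC⟩ := DD_lower
  set ε : ℝ := B - (3 / 2 - Real.log 2) with hε
  have hε0 : 0 < ε := by linarith
  set η : ℝ := min (ε / 8) (1 / 4) with hη
  have hη0 : 0 < η := lt_min (by linarith) (by norm_num)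
  have hη1 : η ≤ ε / 8 := min_le_left _ _
  have hη2 : η ≤ 1 / 4 := min_le_right _ _
  have h2η : 0 < 2 * η := by linarith
  have ev1 : ∀ᶠ x : ℝ in Filter.atTop, ‖Real.log x‖ ≤ 1 / 2 * ‖x ^ (2 * η)‖ :=
    (isLittleO_log_rpow_atTop h2η).bound (by norm_num)
  have ev2 : ∀ᶠ x : ℝ in Filter.atTop, 16 ≤ x ^ (2 * η) :=
    (tendsto_rpow_atTop h2η).eventually_ge_atTop 16
  have ev3 : ∀ᶠ x : ℝ in Filter.atTop, 16 ≤ x ^ (1 / 4 : ℝ) :=
    (tendsto_rpow_atTop (by norm_num : (0 : ℝ) < 1 / 4)).eventually_ge_atTop 16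
  have ev4 : ∀ᶠ x : ℝ in Filter.atTop, max ((3 + Real.log 2 + C) / (ε / 2)) (Real.log 2 / η) ≤
      Real.log x := Real.tendsto_log_atTop.eventually_ge_atTop _
  have ev5 : ∀ᶠ x : ℝ in Filter.atTop, 16 ≤ x := Filter.eventually_ge_atTop 16
  have ev := (ev1.and (ev2.and (ev3.and (ev4.and ev5))))
  have evn := tendsto_natCast_atTop_atTop.eventually ev
  obtain ⟨K, hK⟩ := Filter.eventually_atTop.1 evn
  refine ⟨K, ?_⟩
  intro k hk
  obtain ⟨h1, h2, h3, h4, h5⟩ := hK k hk
  have hk0 : (0 : ℝ) < k := by linarith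
  have hk1 : (1 : ℝ) ≤ k := by linarith
  have hlog0 : 0 ≤ Real.log k := Real.log_natCast_nonneg k
  rw [Real.norm_of_nonneg hlog0, Real.norm_of_nonneg (by positivity)] at h1
  have hlog2 := Real.log_two_lt_d9
  have hlog2' := Real.log_two_gt_d9
  set L := Real.log k with hL
  have hB0 : 0 ≤ B := by linarith
  have hL1 : 1 ≤ L := by
    have h6 := (le_max_right _ _).trans h4
    rw [div_le_iff₀ hη0] at h6
    nlinarith
  have hLC : 3 + Real.log 2 + C ≤ L * (ε / 2) := by
    have h6 := (le_max_left _ _).trans h4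
    rwa [div_le_iff₀ (by linarith)] at h6
  have hLη : Real.log 2 ≤ L * η := by
    have h6 := (le_max_right _ _).trans h4
    rwa [div_le_iff₀ hη0] at h6
  set t : ℝ := (k : ℝ) ^ (1 / 2 + η) with ht
  have ht0 : 0 < t := Real.rpow_pos_of_pos hk0 _
  set y := ⌈t⌉₊ with hy
  have hyt : t ≤ y := Nat.le_ceil _
  have hyt' : (y : ℝ) < t + 1 := Nat.ceil_lt_add_one ht0.le
  have htsq : t ^ 2 = k * (k : ℝ) ^ (2 * η) := by
    rw [ht, ← Real.rpow_natCast, ← Real.rpow_mul hk0.le]
    have : (1 / 2 + η) * ((2 : ℕ) : ℝ) = 1 + 2 * η := by push_cast; ring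
    rw [this, Real.rpow_add hk0, Real.rpow_one]
  have hcond : (k : ℝ) * (1 + Real.log k) ≤ (y : ℝ) ^ 2 := by
    have h6 : 1 + L ≤ (k : ℝ) ^ (2 * η) := by linarith
    calc (k : ℝ) * (1 + Real.log k) ≤ k * (k : ℝ) ^ (2 * η) := by gcongr
      _ = t ^ 2 := htsq.symm
      _ ≤ (y : ℝ) ^ 2 := by gcongr
  have ht34 : t ≤ (k : ℝ) ^ (3 / 4 : ℝ) :=
    Real.rpow_le_rpow_of_exponent_le hk1 (by linarith)
  have h34 : (k : ℝ) ^ (3 / 4 : ℝ) * (k : ℝ) ^ (1 / 4 : ℝ) = k := by
    rw [← Real.rpow_add hk0]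
    norm_num
  have ht4 : 4 ≤ t := by
    by_contra h
    have h := not_le.1 h
    have h6 : t ^ 2 < 4 ^ 2 := pow_lt_pow_left₀ h ht0.le (by norm_num)
    rw [htsq] at h6
    have h7 : (16 : ℝ) * 16 ≤ k * (k : ℝ) ^ (2 * η) := mul_le_mul h5 h2 (by norm_num) hk0.le
    linarith
  have hyk : y ≤ k := by
    have h6 : t + 1 ≤ k := by
      have h7 : 1 ≤ (k : ℝ) ^ (3 / 4 : ℝ) := Real.one_le_rpow hk1 (by norm_num)
      have h8 : (k : ℝ) ^ (3 / 4 : ℝ) * 16 ≤ (k : ℝ) ^ (3 / 4 : ℝ) * (k : ℝ) ^ (1 / 4 : ℝ) :=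
        mul_le_mul_of_nonneg_left h3 (by linarith)
      rw [h34] at h8
      linarith
    exact_mod_cast (hyt'.le.trans h6)
  have hy4 : (4 : ℝ) ≤ y := ht4.trans hyt
  have hy2 : 2 ≤ y := by
    have h6 : 4 ≤ y := by exact_mod_cast hy4
    omega
  have hky2 : k ≤ y ^ 2 := by
    have h6 : (k : ℝ) ≤ (y : ℝ) ^ 2 := by
      refine le_trans ?_ hcond
      exact le_mul_of_one_le_right hk0.le (by linarith)
    exact_mod_cast h6
  have hD := hC k y hy2 hyk hky2
  -- the main term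
  have hG1 : L * Real.log L - (L + Real.log 2) ≤ GG k ((k : ℝ) + 1) := by
    unfold GG
    have h6 : L ≤ Real.log ((k : ℝ) + 1) := Real.log_le_log hk0 (by linarith)
    have h7 : Real.log L ≤ Real.log (Real.log ((k : ℝ) + 1)) :=
      Real.log_le_log (by linarith) h6
    have h8 : Real.log ((k : ℝ) + 1) ≤ L + Real.log 2 := by
      rw [hL, ← Real.log_mul hk0.ne' (by norm_num)]
      apply Real.log_le_log (by linarith)
      linarith
    have h9 := mul_le_mul_of_nonneg_left h7 hlog0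
    linarith
  have hG2 : GG k ((y : ℝ) + 1) ≤ L * (4 * η - Real.log 2 + Real.log L) - L / 2 := by
    unfold GG
    have hlt : Real.log t = (1 / 2 + η) * L := Real.log_rpow hk0 _
    have h6 : Real.log ((y : ℝ) + 1) ≤ (1 / 2 + 2 * η) * L := by
      have h7' : Real.log ((y : ℝ) + 1) ≤ Real.log (t * 2) := by
        apply Real.log_le_log (by positivity)
        linarith
      rw [Real.log_mul ht0.ne' (by norm_num), hlt] at h7'
      have e1 : (1 / 2 + 2 * η) * L = (1 / 2 + η) * L + L * η := by ring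
      linarith
    have h7 : L / 2 ≤ Real.log ((y : ℝ) + 1) := by
      have h8 : Real.log t ≤ Real.log ((y : ℝ) + 1) := Real.log_le_log ht0 (by linarith)
      rw [hlt] at h8
      have e1 : (1 / 2 + η) * L = L / 2 + η * L := by ring
      have e2 : 0 ≤ η * L := mul_nonneg hη0.le hlog0
      linarith
    have h8 : Real.log (Real.log ((y : ℝ) + 1)) ≤ 4 * η - Real.log 2 + Real.log L := by
      have h9 : Real.log (Real.log ((y : ℝ) + 1)) ≤ Real.log ((1 / 2 + 2 * η) * L) :=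
        Real.log_le_log (by linarith) h6
      rw [Real.log_mul (by positivity) (by linarith)] at h9
      have h10 : Real.log (1 / 2 + 2 * η) ≤ 4 * η - Real.log 2 := by
        have h11 : (1 / 2 + 2 * η) = (1 + 4 * η) / 2 := by ring
        rw [h11, Real.log_div (by positivity) (by norm_num)]
        have h12 := Real.log_le_sub_one_of_pos (show 0 < 1 + 4 * η by positivity)
        linarith
      linarith
    have h9 := mul_le_mul_of_nonneg_left h8 hlog0
    linarith
  apply Real.sSup_le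
  · rintro x ⟨S, hS, hc, rfl⟩
    have hk1' : 1 ≤ k := by exact_mod_cast hk1
    have hup := upper_sum k y hk1' hcond S hS hc
    unfold DD at hup
    have hBε : B = 3 / 2 - Real.log 2 + ε := by rw [hε]; ring
    have hηL : L * (4 * η) ≤ L * (ε / 2) := by
      apply mul_le_mul_of_nonneg_left _ hlog0
      linarith
    have e1 : B * L = L * (3 / 2 - Real.log 2) + L * (ε / 2) + L * (ε / 2) := by
      rw [hBε]
      ring
    have e2 : L * (4 * η - Real.log 2 + Real.log L) =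
        L * (4 * η) - L * Real.log 2 + L * Real.log L := by ring
    have e3 : L * (3 / 2 - Real.log 2) = L + L / 2 - L * Real.log 2 := by ring
    rw [e1, e3]
    rw [e2] at hG2
    linarith
  · exact mul_nonneg hB0 hlog0

end Pool.Agent.Y731.CM
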