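import Pool.Agent.Results.MP_cc5630_nt.Theta

set_option autoImplicit false

namespace Pool.Agent.Y731.CM

open Finset hiding val
open Pool.Agent.Results.MP_cc5630_nt.Theta

theorem ene {e : ℕ → ℕ} {X : ℕ} (he : ∀ q, X ≤ 2 ^ e q) (hX : 2 ≤ X) (q : ℕ) : e q ≠ 0 := by
  intro h
  have := he q
  rw [h] at this
  omega

theorem dvd_Q' (e : ℕ → ℕ) {X q d : ℕ} (he : ∀ q, X ≤ 2 ^ e q) (hq : q ≤ X) (hd : 0 < d)
    (hdq : d < q) : d ∣ Q e q := by
  have h1 : ∏ r ∈ d.primeFactors, r ^ d.factorization r = d := by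
    have := Nat.prod_factorization_pow_eq_self hd.ne'
    rwa [Nat.prod_factorization_eq_prod_primeFactors] at this
  rw [← h1]
  have h2 : ∏ r ∈ d.primeFactors, r ^ d.factorization r ∣ ∏ r ∈ d.primeFactors, r ^ e r := by
    apply Finset.prod_dvd_prod_of_dvd
    intro r hr
    apply pow_dvd_pow
    have hrp := Nat.prime_of_mem_primeFactors hr
    have h3 : r ^ d.factorization r ≤ d := Nat.le_of_dvd hd (Nat.ordProj_dvd d r)
    have h4 : (2:ℕ) ^ e r ≤ r ^ e r := Nat.pow_le_pow_left hrp.two_le _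
    have h5 := he r
    have h6 : r ^ d.factorization r < r ^ e r := by omega
    exact ((Nat.pow_lt_pow_iff_right hrp.one_lt).1 h6).le
  refine h2.trans ?_
  apply Finset.prod_dvd_prod_of_subset
  intro r hr
  simp only [Finset.mem_filter, Finset.mem_range]
  refine ⟨?_, Nat.prime_of_mem_primeFactors hr⟩
  have := Nat.le_of_mem_primeFactors hr
  omega

theorem val_dvd_Q' (e : ℕ → ℕ) {X x : ℕ} (he : ∀ q, X ≤ 2 ^ e q) (hx : x ≤ X)
    {p : Σ _ : ℕ, ℕ × ℕ} (hp : p ∈ idx e x) : val p ∣ Q e x := by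
  rw [mem_idx] at hp
  obtain ⟨h1, h2, h3, h4⟩ := hp
  have h5 : val p ∣ Q e (p.1 + 1) := by
    rw [Q_succ_prime e h2, mul_comm]
    unfold val
    apply Nat.mul_dvd_mul
    · exact pow_dvd_pow _ h3
    · exact dvd_Q' e he (by omega) (by omega) (by omega)
  exact h5.trans (Q_dvd e (by omega))

theorem one_hole' (e : ℕ → ℕ) (X : ℕ) (he : ∀ q, X ≤ 2 ^ e q) (a : ℕ → ℤ)
    (K : (Σ _ : ℕ, ℕ × ℕ) → Prop) (x : ℕ) (hx : x ≤ X) :
    ∀ r0 : ℤ, ∀ y ≤ x, (∀ p ∈ idx e y, K p → ¬ r0 ≡ a (val p) [ZMOD (val p : ℤ)]) →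
    ∃ r : ℤ, r ≡ r0 [ZMOD (Q e y : ℤ)] ∧
      ∀ p ∈ idx e x, K p → ¬ r ≡ a (val p) [ZMOD (val p : ℤ)] := by
  induction x with
  | zero =>
    intro r0 y hy h
    have : y = 0 := by omega
    subst this
    exact ⟨r0, Int.ModEq.refl _, h⟩
  | succ x ih =>
    intro r0 y hy h
    rcases Nat.lt_or_ge x y with hxy | hxy
    · have : y = x + 1 := by omega
      subst this
      exact ⟨r0, Int.ModEq.refl _, h⟩
    · obtain ⟨r, hr0, hr⟩ := ih (by omega) r0 y hxy h
      by_cases hpr : x.Prime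
      · have hb := count_bad_union x (Q e x) (e x) hpr.pos (coprime_Q e hpr) r
          (range (e x) ×ˢ range (x - 1)) (fun p => val ⟨x, p⟩) (fun p => a (val ⟨x, p⟩))
          (fun p hp => by simpa using (Finset.mem_product.1 hp).1)
          (fun p hp => by simp [val])
        have hw := weight_full x (e x) hpr.pos
        have hlt : ((range (x ^ e x)).filter (fun t : ℕ => ∃ p ∈ range (e x) ×ˢ range (x - 1),
            r + t * (Q e x : ℕ) ≡ a (val ⟨x, p⟩) [ZMOD (val ⟨x, p⟩ : ℤ)])).card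
            < (range (x ^ e x)).card := by
          rw [Finset.card_range]
          omega
        obtain ⟨t, ht, hnt⟩ := Finset.exists_mem_notMem_of_card_lt_card hlt
        have hgood : ∀ p ∈ range (e x) ×ˢ range (x - 1),
            ¬ r + t * (Q e x : ℕ) ≡ a (val ⟨x, p⟩) [ZMOD (val ⟨x, p⟩ : ℤ)] := by
          intro p hp hh
          exact hnt (Finset.mem_filter.2 ⟨ht, p, hp, hh⟩)
        refine ⟨r + t * (Q e x : ℕ), ?_, ?_⟩
        · refine Int.ModEq.trans ?_ hr0
          have : (Q e y : ℤ) ∣ (Q e x : ℤ) := by exact_mod_cast Q_dvd e hxy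
          have h3 : r + t * (Q e x : ℕ) ≡ r + 0 [ZMOD (Q e y : ℤ)] := by
            apply Int.ModEq.add_left
            exact (Int.modEq_zero_iff_dvd.2 (this.mul_left _))
          simpa using h3
        · intro p hp hKp
          rw [mem_idx] at hp
          rcases Nat.lt_or_ge p.1 x with hlt' | hge
          · have hp' : p ∈ idx e x := mem_idx.2 ⟨hlt', hp.2⟩
            have hd : (val p : ℤ) ∣ (Q e x : ℤ) := by
              exact_mod_cast val_dvd_Q' e he (by omega) hp'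
            intro hh
            apply hr p hp' hKp
            refine Int.ModEq.trans ?_ hh
            have h3 : r + 0 ≡ r + t * (Q e x : ℕ) [ZMOD (val p : ℤ)] := by
              apply Int.ModEq.add_left
              exact (Int.modEq_zero_iff_dvd.2 (hd.mul_left _)).symm
            simpa using h3
          · obtain ⟨q, i, j⟩ := p
            have : q = x := by simp only at hge hp; omega
            subst this
            exact hgood (i, j) (by simpa using ⟨hp.2.2.1, hp.2.2.2⟩)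
      · refine ⟨r, hr0, ?_⟩
        intro p hp hKp
        rw [mem_idx] at hp
        refine hr p ?_ hKp
        rw [mem_idx]
        refine ⟨?_, hp.2⟩
        rcases Nat.lt_or_ge p.1 x with hlt' | hge
        · exact hlt'
        · have : p.1 = x := by omega
          rw [this] at hp
          exact absurd hp.2.1 hpr

theorem two_holes' (e : ℕ → ℕ) (X : ℕ) (he : ∀ q, X ≤ 2 ^ e q) (a : ℕ → ℤ)
    (p0 : Σ _ : ℕ, ℕ × ℕ) (hp0 : p0 ∈ idx e X) :
    ∃ r1 r2 : ℤ, ¬ r1 ≡ r2 [ZMOD (Q e X : ℤ)] ∧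
      (∀ p ∈ idx e X, p ≠ p0 → ¬ r1 ≡ a (val p) [ZMOD (val p : ℤ)]) ∧
      (∀ p ∈ idx e X, p ≠ p0 → ¬ r2 ≡ a (val p) [ZMOD (val p : ℤ)]) := by
  obtain ⟨x, i0, j0⟩ := p0
  have hm := mem_idx.1 hp0
  simp only at hm
  obtain ⟨hxX, hpr, hi0, hj0⟩ := hm
  obtain ⟨r, _, hr⟩ := one_hole' e X he a (fun _ => True) x (by omega) 0 0 (by omega)
    (by intro p hp; simp [mem_idx] at hp)
  set P : Finset (ℕ × ℕ) := (range (e x) ×ˢ range (x - 1)).erase (i0, j0) with hP
  have hmemP : ∀ p ∈ P, p.1 < e x ∧ p.2 < x - 1 := by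
    intro p hp
    have := Finset.mem_of_mem_erase hp
    simpa using this
  have hb := count_bad_union x (Q e x) (e x) hpr.pos (coprime_Q e hpr) r
    P (fun p => val ⟨x, p⟩) (fun p => a (val ⟨x, p⟩))
    (fun p hp => (hmemP p hp).1)
    (fun p hp => by simp [val])
  have hw := weight_full x (e x) hpr.pos
  have hmem0 : (i0, j0) ∈ range (e x) ×ˢ range (x - 1) := by simp [hi0, hj0]
  have hsum : ∑ p ∈ P, x ^ (e x - (p.1 + 1)) + x ^ (e x - (i0 + 1)) =
      ∑ p ∈ range (e x) ×ˢ range (x - 1), x ^ (e x - (p.1 + 1)) :=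
    Finset.sum_erase_add _ (fun p : ℕ × ℕ => x ^ (e x - (p.1 + 1))) hmem0
  have hpos : 0 < x ^ (e x - (i0 + 1)) := pow_pos hpr.pos _
  set B := (range (x ^ e x)).filter (fun t : ℕ => ∃ p ∈ P,
            r + t * (Q e x : ℕ) ≡ a (val ⟨x, p⟩) [ZMOD (val ⟨x, p⟩ : ℤ)]) with hB
  have hBsub : B ⊆ range (x ^ e x) := Finset.filter_subset _ _
  have hBc : B.card ≤ ∑ p ∈ P, x ^ (e x - (p.1 + 1)) := hb
  have hcard : 1 < (range (x ^ e x) \ B).card := by
    rw [Finset.card_sdiff_of_subset hBsub, Finset.card_range]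
    omega
  obtain ⟨t1, ht1, t2, ht2, hne⟩ := Finset.one_lt_card.1 hcard
  rw [Finset.mem_sdiff, Finset.mem_range] at ht1 ht2
  have hgood : ∀ t : ℕ, t < x ^ e x ∧ t ∉ B → ∀ p ∈ idx e (x + 1), p ≠ ⟨x, i0, j0⟩ →
      ¬ r + t * (Q e x : ℕ) ≡ a (val p) [ZMOD (val p : ℤ)] := by
    intro t ht p hp hne hh
    rw [mem_idx] at hp
    rcases Nat.lt_or_ge p.1 x with hlt' | hge
    · have hp' : p ∈ idx e x := mem_idx.2 ⟨hlt', hp.2⟩
      have hd : (val p : ℤ) ∣ (Q e x : ℤ) := by
        exact_mod_cast val_dvd_Q' e he (by omega) hp'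
      apply hr p hp' trivial
      refine Int.ModEq.trans ?_ hh
      have h3 : r + 0 ≡ r + t * (Q e x : ℕ) [ZMOD (val p : ℤ)] := by
        apply Int.ModEq.add_left
        exact (Int.modEq_zero_iff_dvd.2 (hd.mul_left _)).symm
      simpa using h3
    · obtain ⟨q, i, j⟩ := p
      have : q = x := by simp only at hge hp; omega
      subst this
      apply ht.2
      rw [hB, Finset.mem_filter, Finset.mem_range]
      refine ⟨ht.1, (i, j), ?_, hh⟩
      rw [hP, Finset.mem_erase]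
      refine ⟨?_, by simpa using ⟨hp.2.2.1, hp.2.2.2⟩⟩
      intro heq
      apply hne
      rw [heq]
  obtain ⟨s1, hs1, hs1'⟩ := one_hole' e X he a (fun p => p ≠ ⟨x, i0, j0⟩) X le_rfl
    (r + t1 * (Q e x : ℕ)) (x + 1) (by omega) (hgood t1 ht1)
  obtain ⟨s2, hs2, hs2'⟩ := one_hole' e X he a (fun p => p ≠ ⟨x, i0, j0⟩) X le_rfl
    (r + t2 * (Q e x : ℕ)) (x + 1) (by omega) (hgood t2 ht2)
  refine ⟨s1, s2, ?_, hs1', hs2'⟩
  intro hcong
  have hd : (Q e (x + 1) : ℤ) ∣ (Q e X : ℤ) := by exact_mod_cast Q_dvd e (by omega)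
  have h1 : r + t1 * (Q e x : ℕ) ≡ r + t2 * (Q e x : ℕ) [ZMOD (Q e (x + 1) : ℤ)] :=
    hs1.symm.trans ((hcong.of_dvd hd).trans hs2)
  have h2 : (t1 : ℤ) * (Q e x : ℕ) ≡ t2 * (Q e x : ℕ) [ZMOD (Q e (x + 1) : ℤ)] :=
    Int.ModEq.add_left_cancel' r h1
  have h3 : t1 * Q e x ≡ t2 * Q e x [MOD Q e (x + 1)] := by
    rw [← Int.natCast_modEq_iff]
    push_cast
    exact h2
  rw [Q_succ_prime e hpr] at h3
  have h4 : t1 ≡ t2 [MOD x ^ e x] := by
    rw [mul_comm t1, mul_comm t2] at h3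
    exact Nat.ModEq.mul_left_cancel' (Q_pos e x).ne' h3
  exact hne (Nat.ModEq.eq_of_lt_of_lt h4 ht1.1 ht2.1)

theorem Q_gt_one' (e : ℕ → ℕ) (X : ℕ) (he : ∀ q, X ≤ 2 ^ e q) (hX : 3 ≤ X) : 1 < Q e X := by
  have h1 : Q e 3 ∣ Q e X := Q_dvd e hX
  have h2 : Q e 3 = Q e 2 * 2 ^ e 2 := Q_succ_prime e Nat.prime_two
  have h3 : 2 ∣ Q e 3 := by
    rw [h2]
    exact (dvd_pow_self 2 (ene he (by omega) 2)).mul_left _
  have h4 := Nat.le_of_dvd (Q_pos e X) (h3.trans h1)
  omega

theorem Q_notMem' (e : ℕ → ℕ) (X : ℕ) (he : ∀ q, X ≤ 2 ^ e q) (hX : 4 ≤ X) :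
    Q e X ∉ (idx e X).image val := by
  intro h
  obtain ⟨⟨q, i, j⟩, hp, hv⟩ := Finset.mem_image.1 h
  have hm := mem_idx.1 hp
  simp only at hm
  simp only [val] at hv
  have h2 : 2 ^ e 2 ∣ Q e X := by
    have h1 : Q e 3 ∣ Q e X := Q_dvd e (by omega)
    have h2 : Q e 3 = Q e 2 * 2 ^ e 2 := Q_succ_prime e Nat.prime_two
    exact (Dvd.intro_left _ h2.symm).trans h1
  have h3 : 3 ^ e 3 ∣ Q e X := by
    have h1 : Q e 4 ∣ Q e X := Q_dvd e (by omega)
    have h2 : Q e 4 = Q e 3 * 3 ^ e 3 := Q_succ_prime e Nat.prime_three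
    exact (Dvd.intro_left _ h2.symm).trans h1
  by_cases hq : q = 2
  · subst hq
    have hj : j = 0 := by omega
    subst hj
    rw [← hv] at h3
    have h4 : 3 ∣ 2 ^ (i + 1) * (0 + 1) := (dvd_pow_self 3 (ene he (by omega) 3)).trans h3
    have h5 : 3 ∣ 2 ^ (i + 1) := by simpa using h4
    have := Nat.Prime.dvd_of_dvd_pow Nat.prime_three h5
    omega
  · rw [← hv] at h2
    have hc : Nat.Coprime (2 ^ e 2) (q ^ (i + 1)) :=
      Nat.Coprime.pow _ _ ((Nat.coprime_primes Nat.prime_two hm.2.1).2 (by omega))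
    have h4 : 2 ^ e 2 ∣ j + 1 := hc.dvd_of_dvd_mul_left h2
    have h5 := Nat.le_of_dvd (by omega) h4
    have h6 : e 2 < 2 ^ e 2 := Nat.lt_two_pow_self
    have := he 2
    omega

/-- Below the prime `x`, all integers not divisible by `Q e x` are covered. -/
theorem lower_cover' (e : ℕ → ℕ) (X : ℕ) (he : ∀ q, X ≤ 2 ^ e q) (a : ℕ → ℤ)
    (ha : ∀ p ∈ idx e X, ∀ z : ℤ, ((p.2.2 + 1 : ℕ) : ℤ) ∣ z →
      z ≡ ((p.2.2 + 1) * p.1 ^ p.2.1 : ℕ) [ZMOD ((p.1 ^ (p.2.1 + 1) : ℕ) : ℤ)] →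
      z ≡ a (val p) [ZMOD (val p : ℤ)]) (x : ℕ) (hx : x ≤ X) (z : ℤ)
    (hz : ¬ (Q e x : ℤ) ∣ z) : ∃ p ∈ idx e X, z ≡ a (val p) [ZMOD (val p : ℤ)] := by
  induction x with
  | zero => simp [Q] at hz
  | succ x ih =>
    by_cases hzx : (Q e x : ℤ) ∣ z
    · by_cases hpr : x.Prime
      · -- `z` is divisible by `Q e x` but not by `x ^ e x`
        have hnd : ¬ ((x ^ e x : ℕ) : ℤ) ∣ z := by
          intro hd
          apply hz
          rw [Q_succ_prime e hpr]
          push_cast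
          apply IsCoprime.mul_dvd _ hzx (by exact_mod_cast hd)
          have : Nat.Coprime (Q e x) (x ^ e x) := Nat.Coprime.pow_right _ (coprime_Q e hpr).symm
          exact_mod_cast Nat.isCoprime_iff_coprime.2 this
        have hex : ∃ i, ¬ ((x ^ i : ℕ) : ℤ) ∣ z := ⟨e x, hnd⟩
        classical
        have hfind := Nat.find_spec hex
        have hmin := fun m (hm : m < Nat.find hex) => Nat.find_min hex hm
        have hle : Nat.find hex ≤ e x := Nat.find_min' hex hnd
        generalize Nat.find hex = v at hfind hmin hle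
        obtain ⟨i, rfl⟩ : ∃ i, v = i + 1 := by
          refine ⟨v - 1, ?_⟩
          rcases Nat.eq_zero_or_pos v with h0 | h0
          · subst h0
            simp at hfind
          · omega
        have hi : ((x ^ i : ℕ) : ℤ) ∣ z := by
          have := hmin i (by omega)
          exact not_not.1 this
        obtain ⟨w, hw⟩ := hi
        have hxz : (x : ℤ) ≠ 0 := by exact_mod_cast hpr.ne_zero
        have hxpos : (0 : ℤ) < (x : ℤ) := by exact_mod_cast hpr.pos
        have hwnd : ¬ (x : ℤ) ∣ w := by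
          rintro ⟨u, rfl⟩
          apply hfind
          refine ⟨u, ?_⟩
          rw [hw]
          push_cast
          ring
        set d := w % (x : ℤ) with hd
        have hd0 : 0 ≤ d := Int.emod_nonneg _ hxz
        have hdx : d < x := Int.emod_lt_of_pos _ hxpos
        have hdne : d ≠ 0 := by
          intro h0
          exact hwnd (Int.dvd_of_emod_eq_zero h0)
        obtain ⟨j, hj⟩ : ∃ j : ℕ, d = ((j + 1 : ℕ) : ℤ) := ⟨d.toNat - 1, by omega⟩
        have hjx : j + 1 < x := by omega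
        have hmem : (⟨x, i, j⟩ : Σ _ : ℕ, ℕ × ℕ) ∈ idx e X :=
          mem_idx.2 ⟨by simp only; omega, hpr, by simp only; omega, by simp only; omega⟩
        refine ⟨⟨x, i, j⟩, hmem, ha _ hmem z ?_ ?_⟩
        · simp only
          have h1 : j + 1 ∣ Q e x := dvd_Q' e he (by omega) (by omega) hjx
          exact (Int.natCast_dvd_natCast.2 h1).trans hzx
        · simp only
          have h1 : w ≡ ((j + 1 : ℕ) : ℤ) [ZMOD (x : ℤ)] := by
            rw [← hj]
            exact (Int.mod_modEq w x).symm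
          have h2 := h1.mul_left' (c := ((x ^ i : ℕ) : ℤ))
          rw [hw]
          have e1 : ((x ^ (i + 1) : ℕ) : ℤ) = ((x ^ i : ℕ) : ℤ) * (x : ℤ) := by
            push_cast
            ring
          have e2 : (((j + 1) * x ^ i : ℕ) : ℤ) = ((x ^ i : ℕ) : ℤ) * ((j + 1 : ℕ) : ℤ) := by
            push_cast
            ring
          rw [e1, e2]
          exact h2
      · rw [Q_succ_not_prime e hpr] at hz
        exact absurd hzx hz
    · exact ih (by omega) hzx

theorem covering' (e : ℕ → ℕ) (X : ℕ) (he : ∀ q, X ≤ 2 ^ e q) (hX : 4 ≤ X) :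
    IsCoveringSet (S e X) := by
  choose a ha using exists_residue e X
  refine ⟨?_, fun n => if n = Q e X then 0 else a n, ?_⟩
  · intro n hn
    rcases Finset.mem_insert.1 hn with rfl | hn
    · exact Q_gt_one' e X he (by omega)
    · obtain ⟨p, hp, rfl⟩ := Finset.mem_image.1 hn
      exact val_pos hp
  · intro z
    by_cases hz : (Q e X : ℤ) ∣ z
    · refine ⟨Q e X, Finset.mem_insert_self _ _, ?_⟩
      simp only [if_true]
      exact Int.modEq_zero_iff_dvd.2 hz
    · obtain ⟨p, hp, h⟩ := lower_cover' e X he a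
        (fun p hp z h1 h2 => ha (val p) p hp rfl z h1 h2) X le_rfl z hz
      have hmem : val p ∈ (idx e X).image val := Finset.mem_image_of_mem _ hp
      refine ⟨val p, Finset.mem_insert_of_mem hmem, ?_⟩
      have hne : val p ≠ Q e X := by
        intro heq
        rw [heq] at hmem
        exact Q_notMem' e X he hX hmem
      simp only [if_neg hne]
      exact h

theorem irreducible' (e : ℕ → ℕ) (X : ℕ) (he : ∀ q, X ≤ 2 ^ e q) (hX : 4 ≤ X) :
    IsIrreducible (S e X) := by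
  refine ⟨covering' e X he hX, ?_⟩
  intro T hT hcov
  obtain ⟨hsub, hne⟩ := Finset.ssubset_iff_subset_ne.1 hT
  obtain ⟨m, hmS, hmT⟩ : ∃ m ∈ S e X, m ∉ T := by
    by_contra hcon
    push Not at hcon
    exact hne (Finset.Subset.antisymm hsub hcon)
  obtain ⟨_, a, ha⟩ := hcov
  rcases Finset.mem_insert.1 hmS with rfl | hm
  · -- the last modulus is missing
    obtain ⟨r, _, hr⟩ := one_hole' e X he a (fun _ => True) X le_rfl 0 0 (by omega)
      (by intro p hp; simp [mem_idx] at hp)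
    obtain ⟨n, hn, hrn⟩ := ha r
    rcases Finset.mem_insert.1 (hsub hn) with rfl | hn'
    · exact hmT hn
    · obtain ⟨p, hp, rfl⟩ := Finset.mem_image.1 hn'
      exact hr p hp trivial hrn
  · obtain ⟨p0, hp0, rfl⟩ := Finset.mem_image.1 hm
    obtain ⟨r1, r2, hr, h1, h2⟩ := two_holes' e X he a p0 hp0
    have key : ∀ r : ℤ, (∀ p ∈ idx e X, p ≠ p0 → ¬ r ≡ a (val p) [ZMOD (val p : ℤ)]) →
        r ≡ a (Q e X) [ZMOD (Q e X : ℤ)] := by
      intro r hr
      obtain ⟨n, hn, hrn⟩ := ha r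
      rcases Finset.mem_insert.1 (hsub hn) with rfl | hn'
      · exact hrn
      · obtain ⟨p, hp, rfl⟩ := Finset.mem_image.1 hn'
        exfalso
        refine hr p hp ?_ hrn
        rintro rfl
        exact hmT hn
    exact hr ((key r1 h1).trans (key r2 h2).symm)

theorem card_S' (e : ℕ → ℕ) (X : ℕ) (he : ∀ q, X ≤ 2 ^ e q) (hX : 4 ≤ X) :
    (S e X).card = ∑ q ∈ (range X).filter Nat.Prime, e q * (q - 1) + 1 := by
  unfold S
  rw [Finset.card_insert_of_notMem (Q_notMem' e X he hX), Finset.card_image_of_injOn val_inj]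
  unfold idx
  rw [Finset.card_sigma]
  simp

theorem recip_S' (e : ℕ → ℕ) (X : ℕ) (he : ∀ q, X ≤ 2 ^ e q) (hX : 4 ≤ X) :
    ∑ q ∈ (range X).filter Nat.Prime, Real.log q / q ≤ ∑ n ∈ S e X, (1 : ℝ) / n := by
  unfold S
  rw [Finset.sum_insert (Q_notMem' e X he hX), Finset.sum_image val_inj]
  have h0 : (0 : ℝ) ≤ 1 / (Q e X : ℝ) := by positivity
  refine le_add_of_nonneg_of_le h0 ?_
  unfold idx
  rw [Finset.sum_sigma]
  apply Finset.sum_le_sum
  intro q hq
  simp only [Finset.mem_filter, Finset.mem_range] at hq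
  have hq0 : (0 : ℝ) < q := by exact_mod_cast hq.2.pos
  have h1 : Real.log q ≤ ∑ j ∈ range (q - 1), (1 : ℝ) / (j + 1) := by
    have h2 := log_add_one_le_harmonic (q - 1)
    have h3 : q - 1 + 1 = q := by have := hq.2.pos; omega
    rw [h3] at h2
    refine h2.trans (le_of_eq ?_)
    simp [harmonic]
  have hmem : 0 ∈ range (e q) := by
    rw [Finset.mem_range]
    exact Nat.pos_of_ne_zero (ene he (by omega) q)
  calc Real.log q / q ≤ (∑ j ∈ range (q - 1), (1 : ℝ) / (j + 1)) / q := by gcongr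
    _ = ∑ j ∈ range (q - 1), (1 : ℝ) / (val ⟨q, 0, j⟩) := by
        rw [Finset.sum_div]
        apply Finset.sum_congr rfl
        intro j _
        simp only [val]
        push_cast
        field_simp
    _ ≤ ∑ i ∈ range (e q), ∑ j ∈ range (q - 1), (1 : ℝ) / (val ⟨q, i, j⟩) := by
        refine Finset.single_le_sum
          (f := fun i => ∑ j ∈ range (q - 1), (1 : ℝ) / (val ⟨q, i, j⟩)) ?_ hmem
        intro i _
        positivity
    _ = ∑ p ∈ range (e q) ×ˢ range (q - 1), (1 : ℝ) / (val ⟨q, p⟩) := by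
        rw [Finset.sum_product]


end Pool.Agent.Y731.CM
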