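import Pool.Agent.Results.MP_cc5630_nt.Theta

set_option autoImplicit false

namespace Pool.Agent.Y731.CM

open Finset hiding val
open Pool.Agent.Results.MP_cc5630_nt.Theta

/-- `p - 1` copies of every prime factor `p` of `n`. -/
def tt (n : ℕ) : Finset (Σ _ : ℕ, ℕ) := n.primeFactors.sigma (fun p => range (p - 1))

theorem mem_tt {n : ℕ} {x : Σ _ : ℕ, ℕ} : x ∈ tt n ↔ x.1 ∈ n.primeFactors ∧ x.2 < x.1 - 1 := by
  simp [tt]

theorem crt_step (W p : ℕ) (h : Nat.Coprime W p) (z1 r : ℤ) :
    ∃ z : ℤ, z ≡ z1 [ZMOD (W : ℤ)] ∧ z ≡ r [ZMOD (p : ℤ)] := by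
  obtain ⟨u, v, huv⟩ := Nat.isCoprime_iff_coprime.2 h
  refine ⟨z1 + (r - z1) * (u * W), ?_, ?_⟩
  · apply Int.ModEq.symm
    rw [Int.modEq_iff_dvd]
    exact ⟨(r - z1) * u, by ring⟩
  · apply Int.ModEq.symm
    rw [Int.modEq_iff_dvd]
    refine ⟨-((r - z1) * v), ?_⟩
    have : (u : ℤ) * W = 1 - v * p := by linarith
    rw [this]
    ring

theorem crt_primes (W : ℕ) (r : ℕ → ℤ) (z0 : ℤ) (P : Finset ℕ) (hP : ∀ p ∈ P, p.Prime)
    (hW : ∀ p ∈ P, Nat.Coprime W p) :
    ∃ z : ℤ, z ≡ z0 [ZMOD (W : ℤ)] ∧ ∀ p ∈ P, z ≡ r p [ZMOD (p : ℤ)] := by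
  induction P using Finset.induction_on with
  | empty => exact ⟨z0, Int.ModEq.refl _, by simp⟩
  | insert p P hp ih =>
    obtain ⟨z1, h1, h2⟩ := ih (fun q hq => hP q (Finset.mem_insert_of_mem hq))
      (fun q hq => hW q (Finset.mem_insert_of_mem hq))
    have hpp := hP p (Finset.mem_insert_self p P)
    have hc : Nat.Coprime (W * ∏ q ∈ P, q) p := by
      apply Nat.Coprime.mul_left (hW p (Finset.mem_insert_self p P))
      apply Nat.Coprime.prod_left
      intro q hq
      refine (Nat.coprime_primes (hP q (Finset.mem_insert_of_mem hq)) hpp).2 ?_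
      rintro rfl
      exact hp hq
    obtain ⟨z, hz1, hz2⟩ := crt_step _ p hc z1 (r p)
    refine ⟨z, ?_, ?_⟩
    · refine (hz1.of_dvd ?_).trans h1
      push_cast
      exact dvd_mul_right _ _
    · intro q hq
      rcases Finset.mem_insert.1 hq with rfl | hq
      · exact hz2
      · refine (hz1.of_dvd ?_).trans (h2 q hq)
        have : q ∣ W * ∏ q ∈ P, q := (Finset.dvd_prod_of_mem _ hq).mul_left _
        exact_mod_cast this

theorem not_cov {C : Finset ℕ} (h1 : ∀ n ∈ C, 1 < n) (h : ¬ IsCoveringSet C) (a : ℕ → ℤ) :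
    ∃ z : ℤ, ∀ n ∈ C, ¬ z ≡ a n [ZMOD (n : ℤ)] := by
  by_contra hcon
  push Not at hcon
  exact h ⟨h1, a, hcon⟩

theorem hall_bound (S : Finset ℕ) (hS : IsIrreducible S) : (S.biUnion tt).card < S.card := by
  classical
  obtain ⟨⟨hS1, a, ha⟩, hirr⟩ := hS
  by_contra hcon
  have hne : S.Nonempty := by
    obtain ⟨n, hn, _⟩ := ha 0
    exact ⟨n, hn⟩
  -- a maximal set with the wrong inequality
  set F : Finset (Finset ℕ) := S.powerset.filter
    (fun C => (C.biUnion tt).card < C.card ∨ C = ∅) with hF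
  have hFne : F.Nonempty := ⟨∅, by simp [hF]⟩
  obtain ⟨C, hCF, hmax⟩ := Finset.exists_max_image F Finset.card hFne
  have hCF' := hCF
  rw [hF, Finset.mem_filter, Finset.mem_powerset] at hCF
  obtain ⟨hCS, hC⟩ := hCF
  have hCle : (C.biUnion tt).card ≤ C.card := by
    rcases hC with h | h
    · exact h.le
    · subst h
      simp
  have hCne : C ≠ S := by
    rintro rfl
    rcases hC with h | h
    · exact hcon h
    · exact hne.ne_empty h
  have hCcov : ¬ IsCoveringSet C := hirr C (Finset.ssubset_iff_subset_ne.2 ⟨hCS, hCne⟩)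
  have hbig : ∀ D ⊆ S \ C, D.card ≤ (D.biUnion (fun n => tt n \ C.biUnion tt)).card := by
    intro D hD
    rcases D.eq_empty_or_nonempty with rfl | hDne
    · simp
    have hdisj : Disjoint C D := by
      rw [Finset.disjoint_left]
      intro n hn hn'
      exact (Finset.mem_sdiff.1 (hD hn')).2 hn
    have hcard : (C ∪ D).card = C.card + D.card := Finset.card_union_of_disjoint hdisj
    have hDpos : 0 < D.card := hDne.card_pos
    have hnot : ¬ ((C ∪ D).biUnion tt).card < (C ∪ D).card := by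
      intro hlt
      have hmem : C ∪ D ∈ F := by
        rw [hF, Finset.mem_filter, Finset.mem_powerset]
        exact ⟨Finset.union_subset hCS (hD.trans Finset.sdiff_subset), Or.inl hlt⟩
      have := hmax _ hmem
      omega
    have hun : (C ∪ D).biUnion tt =
        C.biUnion tt ∪ D.biUnion (fun n => tt n \ C.biUnion tt) := by
      ext x
      simp only [Finset.mem_biUnion, Finset.mem_union, Finset.mem_sdiff]
      constructor
      · rintro ⟨n, hn | hn, hx⟩
        · exact Or.inl ⟨n, hn, hx⟩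
        · by_cases h : ∃ a ∈ C, x ∈ tt a
          · exact Or.inl h
          · exact Or.inr ⟨n, hn, hx, h⟩
      · rintro (⟨n, hn, hx⟩ | ⟨n, hn, hx, _⟩)
        · exact ⟨n, Or.inl hn, hx⟩
        · exact ⟨n, Or.inr hn, hx⟩
    have hle : ((C ∪ D).biUnion tt).card ≤
        (C.biUnion tt).card + (D.biUnion (fun n => tt n \ C.biUnion tt)).card := by
      rw [hun]
      exact Finset.card_union_le _ _
    omega
  -- Hall's theorem
  have hall := (Finset.all_card_le_biUnion_card_iff_exists_injective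
    (fun n : {n // n ∈ S \ C} => tt n.1 \ C.biUnion tt)).1 (by
      intro s
      have h1 := hbig (s.map (Function.Embedding.subtype _)) (by
        intro n hn
        rw [Finset.mem_map] at hn
        obtain ⟨m, _, rfl⟩ := hn
        exact m.2)
      rw [Finset.card_map] at h1
      refine h1.trans (le_of_eq ?_)
      congr 1
      ext x
      simp)
  obtain ⟨f, hfinj, hf⟩ := hall
  obtain ⟨z0, hz0⟩ := not_cov (fun n hn => hS1 n (hCS hn)) hCcov a
  set W := ∏ n ∈ C, n with hW
  set P : Finset ℕ := (Finset.univ : Finset {n // n ∈ S \ C}).image (fun n => (f n).1) with hP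
  have hfm : ∀ n : {n // n ∈ S \ C}, (f n).1 ∈ n.1.primeFactors ∧ (f n).2 < (f n).1 - 1 ∧
      ∀ m ∈ C, ¬ (f n).1 ∣ m := by
    intro n
    have h1 := Finset.mem_sdiff.1 (hf n)
    have h2 := mem_tt.1 h1.1
    refine ⟨h2.1, h2.2, ?_⟩
    intro m hm hdvd
    apply h1.2
    rw [Finset.mem_biUnion]
    refine ⟨m, hm, mem_tt.2 ⟨?_, h2.2⟩⟩
    rw [Nat.mem_primeFactors]
    refine ⟨Nat.prime_of_mem_primeFactors h2.1, hdvd, ?_⟩
    have := hS1 m (hCS hm)
    omega
  have hPp : ∀ p ∈ P, p.Prime := by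
    intro p hp
    obtain ⟨n, _, rfl⟩ := Finset.mem_image.1 hp
    exact Nat.prime_of_mem_primeFactors (hfm n).1
  have hPW : ∀ p ∈ P, Nat.Coprime W p := by
    intro p hp
    have hpp := hPp p hp
    obtain ⟨n, _, rfl⟩ := Finset.mem_image.1 hp
    apply Nat.Coprime.prod_left
    intro m hm
    exact ((Nat.Prime.coprime_iff_not_dvd hpp).2 ((hfm n).2.2 m hm)).symm
  -- a residue modulo each of the primes
  have hres : ∀ p : ℕ, ∃ r : ℤ, p ∈ P → ∀ n : {n // n ∈ S \ C}, (f n).1 = p →
      ¬ r ≡ a n.1 [ZMOD (p : ℤ)] := by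
    intro p
    by_cases hp : p ∈ P
    · have hpp := hPp p hp
      have hp0 : (p : ℤ) ≠ 0 := by exact_mod_cast hpp.ne_zero
      have hppos : (0 : ℤ) < p := by exact_mod_cast hpp.pos
      set B : Finset ℕ := ((Finset.univ : Finset {n // n ∈ S \ C}).filter
        (fun n => (f n).1 = p)).image (fun n => (a n.1 % (p : ℤ)).toNat) with hB
      have hBcard : B.card ≤ p - 1 := by
        refine Finset.card_image_le.trans ?_
        rw [← Finset.card_range (p - 1)]
        refine Finset.card_le_card_of_injOn (fun n => (f n).2) ?_ ?_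
        · intro n hn
          have h1 := (Finset.mem_filter.1 (Finset.mem_coe.1 hn)).2
          have h2 := (hfm n).2.1
          rw [h1] at h2
          simpa using h2
        · intro n hn m hm hnm
          have h1 := (Finset.mem_filter.1 (Finset.mem_coe.1 hn)).2
          have h2 := (Finset.mem_filter.1 (Finset.mem_coe.1 hm)).2
          apply hfinj
          simp only at hnm
          exact Sigma.ext (h1.trans h2.symm) (heq_of_eq hnm)
      have hlt : B.card < (range p).card := by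
        rw [Finset.card_range]
        have := hpp.pos
        omega
      obtain ⟨r, hr, hrB⟩ := Finset.exists_mem_notMem_of_card_lt_card hlt
      refine ⟨(r : ℤ), fun _ n hn hcong => hrB ?_⟩
      rw [hB, Finset.mem_image]
      refine ⟨n, Finset.mem_filter.2 ⟨Finset.mem_univ _, hn⟩, ?_⟩
      have h1 : (r : ℤ) % p = a n.1 % p := hcong
      rw [← h1, Int.emod_eq_of_lt (by positivity) (by exact_mod_cast Finset.mem_range.1 hr)]
      simp
    · exact ⟨0, fun h => absurd h hp⟩
  choose r hr using hres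
  obtain ⟨z, hz1, hz2⟩ := crt_primes W r z0 P hPp hPW
  obtain ⟨n, hn, hzn⟩ := ha z
  by_cases hnC : n ∈ C
  · apply hz0 n hnC
    have hd : (n : ℤ) ∣ (W : ℤ) := by exact_mod_cast Finset.dvd_prod_of_mem _ hnC
    exact (hz1.of_dvd hd).symm.trans hzn
  · have hn' : n ∈ S \ C := Finset.mem_sdiff.2 ⟨hn, hnC⟩
    have hpP : (f ⟨n, hn'⟩).1 ∈ P := Finset.mem_image_of_mem _ (Finset.mem_univ _)
    apply hr _ hpP ⟨n, hn'⟩ rfl
    have hd : ((f ⟨n, hn'⟩).1 : ℤ) ∣ (n : ℤ) := by
      exact_mod_cast Nat.dvd_of_mem_primeFactors (hfm ⟨n, hn'⟩).1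
    exact (hz2 _ hpP).symm.trans (hzn.of_dvd hd)

/-- **Simpson's inequality** (for the square-free kernel of the least common multiple). -/
theorem simpson (S : Finset ℕ) (hS : IsIrreducible S) :
    ∑ p ∈ S.biUnion Nat.primeFactors, (p - 1) < S.card := by
  have h1 := hall_bound S hS
  have h2 : S.biUnion tt = (S.biUnion Nat.primeFactors).sigma (fun p => range (p - 1)) := by
    ext x
    simp only [Finset.mem_biUnion, mem_tt, Finset.mem_sigma, Finset.mem_range]
    constructor
    · rintro ⟨n, hn, h, h'⟩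
      exact ⟨⟨n, hn, h⟩, h'⟩
    · rintro ⟨⟨n, hn, h⟩, h'⟩
      exact ⟨n, hn, h, h'⟩
  rw [h2, Finset.card_sigma] at h1
  simpa using h1

end Pool.Agent.Y731.CM
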