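import Mathlib

set_option autoImplicit false

namespace Pool.Agent.Y731.CM

open Finset

/-- The sum of `log q / q` over the primes `q ≤ n`. -/
noncomputable def A (n : ℕ) : ℝ := ∑ q ∈ (range (n + 1)).filter Nat.Prime, Real.log q / q

theorem corr : ∃ C : ℝ, 0 ≤ C ∧ ∀ n : ℕ,
    ∑ q ∈ (range (n + 1)).filter Nat.Prime, Real.log q / (q * ((q : ℝ) - 1)) ≤ C := by
  have hs : Summable (fun n : ℕ => 4 * (1 / (n : ℝ) ^ (3 / 2 : ℝ))) :=
    (Real.summable_one_div_nat_rpow.2 (by norm_num)).mul_left 4
  refine ⟨∑' n : ℕ, 4 * (1 / (n : ℝ) ^ (3 / 2 : ℝ)), tsum_nonneg (fun n => by positivity), ?_⟩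
  intro n
  refine le_trans (Finset.sum_le_sum (g := fun q : ℕ => 4 * (1 / (q : ℝ) ^ (3 / 2 : ℝ))) ?_)
    (hs.sum_le_tsum _ (fun q _ => by positivity))
  intro q hq
  have hp := (Finset.mem_filter.1 hq).2
  have hq2 : (2 : ℝ) ≤ q := by exact_mod_cast hp.two_le
  have hq0 : (0 : ℝ) < q := by linarith
  have hs0 : 0 < Real.sqrt q := Real.sqrt_pos.2 hq0
  have hlog : Real.log q ≤ 2 * Real.sqrt q := by
    have h1 := Real.log_le_sub_one_of_pos hs0
    have h2 : Real.log (Real.sqrt q) = Real.log q / 2 := Real.log_sqrt hq0.le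
    rw [h2] at h1
    linarith
  have hpow : (q : ℝ) ^ (3 / 2 : ℝ) = q * Real.sqrt q := by
    rw [Real.sqrt_eq_rpow]
    nth_rewrite 2 [← Real.rpow_one (q : ℝ)]
    rw [← Real.rpow_add hq0]
    norm_num
  rw [hpow, div_le_iff₀ (by nlinarith), mul_one_div, div_mul_eq_mul_div, le_div_iff₀ (by positivity)]
  have hsq : Real.sqrt q * Real.sqrt q = q := Real.mul_self_sqrt hq0.le
  calc Real.log q * (q * Real.sqrt q) ≤ 2 * Real.sqrt q * (q * Real.sqrt q) := by
        apply mul_le_mul_of_nonneg_right hlog
        positivity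
    _ = 2 * q * (Real.sqrt q * Real.sqrt q) := by ring
    _ = 2 * q * q := by rw [hsq]
    _ ≤ 4 * (q * (q - 1)) := by nlinarith

theorem log_fac_lower (n : ℕ) (hn : 1 ≤ n) :
    (n : ℝ) * Real.log n - n ≤ Real.log (n.factorial : ℝ) := by
  have hn0 : (0 : ℝ) < n := by exact_mod_cast hn
  have hfac : (0 : ℝ) < (n.factorial : ℝ) := by exact_mod_cast n.factorial_pos
  have h2 := Real.pow_div_factorial_le_exp (n : ℝ) hn0.le n
  rw [div_le_iff₀ hfac] at h2
  have h3 := Real.log_le_log (by positivity) h2
  rw [Real.log_pow, Real.log_mul (Real.exp_pos _).ne' hfac.ne', Real.log_exp] at h3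
  linarith

theorem log_fac_eq (n : ℕ) : Real.log (n.factorial : ℝ) =
    ∑ q ∈ (range (n + 1)).filter Nat.Prime, ((n.factorial).factorization q : ℝ) * Real.log q := by
  rw [Real.log_nat_eq_sum_factorization, Finsupp.sum, Nat.support_factorization]
  apply Finset.sum_subset
  · intro q hq
    have hp := Nat.prime_of_mem_primeFactors hq
    have hd := Nat.dvd_of_mem_primeFactors hq
    simp only [Finset.mem_filter, Finset.mem_range]
    exact ⟨Nat.lt_succ_of_le ((hp.dvd_factorial).1 hd), hp⟩
  · intro q _ hq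
    have : (n.factorial).factorization q = 0 := by
      rw [← Finsupp.notMem_support_iff, Nat.support_factorization]
      exact hq
    simp [this]

theorem mert_lower : ∃ C : ℝ, 0 ≤ C ∧ ∀ n : ℕ, 1 ≤ n → Real.log n - C ≤ A n := by
  obtain ⟨C, hC0, hC⟩ := corr
  refine ⟨C + 1, by linarith, ?_⟩
  intro n hn
  have hn0 : (0 : ℝ) < n := by exact_mod_cast hn
  have h1 := log_fac_lower n hn
  have h2 : Real.log (n.factorial : ℝ) ≤ ∑ q ∈ (range (n + 1)).filter Nat.Prime,
      n * (Real.log q / q + Real.log q / (q * ((q : ℝ) - 1))) := by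
    rw [log_fac_eq]
    apply Finset.sum_le_sum
    intro q hq
    have hp := (Finset.mem_filter.1 hq).2
    have hlog : 0 ≤ Real.log q := Real.log_natCast_nonneg q
    have hq2 : (2 : ℝ) ≤ q := by exact_mod_cast hp.two_le
    have h3 : (q - 1) * (n.factorial).factorization q ≤ n := by
      rw [Nat.sub_one_mul_factorization_factorial hp]
      omega
    have h4 : ((q : ℝ) - 1) * ((n.factorial).factorization q : ℝ) ≤ n := by
      have : (((q - 1 : ℕ) : ℝ)) = (q : ℝ) - 1 := by
        rw [Nat.cast_sub hp.one_lt.le]; simp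
      rw [← this]
      exact_mod_cast h3
    have h5 : ((n.factorial).factorization q : ℝ) ≤ n / ((q : ℝ) - 1) := by
      rw [le_div_iff₀ (by linarith)]
      linarith
    calc ((n.factorial).factorization q : ℝ) * Real.log q
        ≤ n / ((q : ℝ) - 1) * Real.log q := mul_le_mul_of_nonneg_right h5 hlog
      _ = n * (Real.log q / q + Real.log q / (q * ((q : ℝ) - 1))) := by
          have : (q : ℝ) - 1 ≠ 0 := by linarith
          have : (q : ℝ) ≠ 0 := by linarith
          field_simp
          ring
  rw [← Finset.mul_sum, Finset.sum_add_distrib] at h2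
  have h3 := hC n
  have h4 : (n : ℝ) * (Real.log n - 1) ≤ n * (A n + C) := by
    have : (n : ℝ) * (∑ q ∈ (range (n + 1)).filter Nat.Prime, Real.log q / q +
      ∑ q ∈ (range (n + 1)).filter Nat.Prime, Real.log q / (q * ((q : ℝ) - 1))) ≤
        n * (A n + C) := by
      apply mul_le_mul_of_nonneg_left _ hn0.le
      unfold A
      linarith
    linarith
  have h5 := le_of_mul_le_mul_left h4 hn0
  linarith

theorem mert_upper (n : ℕ) (hn : 1 ≤ n) : A n ≤ Real.log n + Real.log 4 := by
  have hn0 : (0 : ℝ) < n := by exact_mod_cast hn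
  have h1 : Real.log (n.factorial : ℝ) ≤ n * Real.log n := by
    rw [← Real.log_pow]
    apply Real.log_le_log (by exact_mod_cast n.factorial_pos)
    exact_mod_cast Nat.factorial_le_pow n
  have h2 : ∑ q ∈ (range (n + 1)).filter Nat.Prime, ((n : ℝ) / q - 1) * Real.log q ≤
      Real.log (n.factorial : ℝ) := by
    rw [log_fac_eq]
    apply Finset.sum_le_sum
    intro q hq
    have hp := (Finset.mem_filter.1 hq).2
    have hlog : 0 ≤ Real.log q := Real.log_natCast_nonneg q
    apply mul_le_mul_of_nonneg_right _ hlog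
    have h3 : n / q ≤ (n.factorial).factorization q := by
      rw [Nat.factorization_factorial hp (Nat.lt_succ_self (Nat.log q n))]
      by_cases hlg : Nat.log q n = 0
      · have : n < q := by
          rcases Nat.log_eq_zero_iff.1 hlg with h | h
          · exact h
          · have := hp.two_le
            omega
        rw [Nat.div_eq_of_lt this]
        exact Nat.zero_le _
      · have hmem : 1 ∈ Finset.Ico 1 (Nat.log q n).succ := by
          rw [Finset.mem_Ico]
          omega
        have := Finset.single_le_sum (f := fun i => n / q ^ i) (fun i _ => Nat.zero_le _) hmem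
        simpa using this
    have h4 : (n : ℝ) / q - 1 ≤ ((n / q : ℕ) : ℝ) := by
      have h5 := Nat.lt_floor_add_one ((n : ℝ) / q)
      rw [Nat.floor_div_natCast, Nat.floor_natCast] at h5
      linarith
    have h5 : ((n / q : ℕ) : ℝ) ≤ ((n.factorial).factorization q : ℝ) := by exact_mod_cast h3
    linarith
  have h3 : ∑ q ∈ (range (n + 1)).filter Nat.Prime, Real.log q ≤ n * Real.log 4 := by
    have h4 := primorial_le_four_pow n
    have h5 : Real.log ((primorial n : ℕ) : ℝ) ≤ Real.log ((4 : ℝ) ^ n) := by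
      apply Real.log_le_log (by exact_mod_cast primorial_pos n)
      exact_mod_cast h4
    rw [Real.log_pow] at h5
    refine le_trans (le_of_eq ?_) h5
    unfold primorial
    rw [Nat.cast_prod, Real.log_prod]
    intro p hp
    have := (Finset.mem_filter.1 hp).2.pos.ne'
    exact_mod_cast this
  have h4 : ∑ q ∈ (range (n + 1)).filter Nat.Prime, ((n : ℝ) / q - 1) * Real.log q =
      n * A n - ∑ q ∈ (range (n + 1)).filter Nat.Prime, Real.log q := by
    unfold A
    rw [Finset.mul_sum, ← Finset.sum_sub_distrib]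
    apply Finset.sum_congr rfl
    intro q _
    ring
  rw [h4] at h2
  have h5 : (n : ℝ) * A n ≤ n * (Real.log n + Real.log 4) := by linarith
  exact le_of_mul_le_mul_left h5 hn0

end Pool.Agent.Y731.CM
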