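import Pool.Agent.Y731.CM.A
import Pool.Agent.Y731.CM.Mert

set_option autoImplicit false

namespace Pool.Agent.Y731.CM

open Finset hiding val
open Pool.Agent.Results.MP_cc5630_nt.Theta

theorem lower_fin (X L k : ℕ) (hX : 4 ≤ X) (hXL : X ≤ 2 ^ L) (hk : L * X ^ 2 + 1 + L ≤ k) :
    A (X - 1) ≤ M k := by
  set R := ∑ q ∈ (range X).filter Nat.Prime \ {2}, L * (q - 1) with hR
  have hRle : R ≤ L * X ^ 2 := by
    calc R ≤ ∑ q ∈ (range X).filter Nat.Prime \ {2}, L * X := by
          apply Finset.sum_le_sum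
          intro q hq
          simp only [Finset.mem_sdiff, Finset.mem_filter, Finset.mem_range] at hq
          apply Nat.mul_le_mul_left
          omega
      _ = ((range X).filter Nat.Prime \ {2}).card * (L * X) := by simp
      _ ≤ X * (L * X) := by
          apply Nat.mul_le_mul_right
          calc _ ≤ ((range X).filter Nat.Prime).card := Finset.card_le_card Finset.sdiff_subset
            _ ≤ (range X).card := Finset.card_filter_le _ _
            _ = X := Finset.card_range X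
      _ = L * X ^ 2 := by ring
  set B := k - 1 - R with hB
  let e : ℕ → ℕ := fun q => if q = 2 then B else L
  have he : ∀ q, X ≤ 2 ^ e q := by
    intro q
    simp only [e]
    split_ifs
    · refine hXL.trans (Nat.pow_le_pow_right (by norm_num) ?_)
      omega
    · exact hXL
  have h2mem : 2 ∈ (range X).filter Nat.Prime := by
    simp only [Finset.mem_filter, Finset.mem_range]
    exact ⟨by omega, Nat.prime_two⟩
  have hcard : (S e X).card = k := by
    rw [card_S' e X he (by omega)]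
    have h3 : ∑ q ∈ (range X).filter Nat.Prime, e q * (q - 1) = R + B := by
      rw [← Finset.sum_sdiff (Finset.singleton_subset_iff.2 h2mem)]
      congr 1
      · apply Finset.sum_congr rfl
        intro q hq
        simp only [Finset.mem_sdiff, Finset.mem_singleton] at hq
        simp only [e, if_neg hq.2]
      · simp [e]
    rw [h3]
    omega
  have hmem : ∑ n ∈ S e X, (1 : ℝ) / n ∈ reciprocalSums k :=
    ⟨S e X, irreducible' e X he (by omega), hcard, rfl⟩
  have hM := le_csSup (bddAbove k) hmem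
  have h3 := recip_S' e X he (by omega)
  have h4 : A (X - 1) = ∑ q ∈ (range X).filter Nat.Prime, Real.log q / q := by
    unfold A
    rw [show X - 1 + 1 = X by omega]
  rw [h4]
  exact h3.trans hM

theorem lower_asymp (c : ℝ) (hc : c < 1 / 2) :
    ∃ K : ℕ, ∀ k : ℕ, K ≤ k → c * Real.log k ≤ M k := by
  obtain ⟨C, hC0, hC⟩ := mert_lower
  -- an exponent between `c` and `1/2`
  obtain ⟨α, hα0, hcα, hα⟩ : ∃ α : ℝ, 0 < α ∧ c < α ∧ α < 1 / 2 := by
    refine ⟨(max c 0 + 1 / 2) / 2, ?_, ?_, ?_⟩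
    · have := le_max_right c 0
      linarith
    · have := le_max_left c 0
      linarith
    · have : max c 0 < 1 / 2 := max_lt hc (by norm_num)
      linarith
  set δ : ℝ := 1 - 2 * α with hδ
  have hδ0 : 0 < δ := by linarith
  have ev1 : ∀ᶠ x : ℝ in Filter.atTop, ‖Real.log x‖ ≤ 1 / 16 * ‖x ^ δ‖ :=
    (isLittleO_log_rpow_atTop hδ0).bound (by norm_num)
  have ev2 : ∀ᶠ x : ℝ in Filter.atTop, 16 ≤ x ^ δ :=
    (tendsto_rpow_atTop hδ0).eventually_ge_atTop 16
  have ev3 : ∀ᶠ x : ℝ in Filter.atTop, 16 ≤ x ^ α :=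
    (tendsto_rpow_atTop hα0).eventually_ge_atTop 16
  have ev4 : ∀ᶠ x : ℝ in Filter.atTop, (C + Real.log 2) / (α - c) ≤ Real.log x :=
    Real.tendsto_log_atTop.eventually_ge_atTop _
  have ev5 : ∀ᶠ x : ℝ in Filter.atTop, 16 ≤ x := Filter.eventually_ge_atTop 16
  have ev := (ev1.and (ev2.and (ev3.and (ev4.and ev5))))
  have evn := tendsto_natCast_atTop_atTop.eventually ev
  obtain ⟨K, hK⟩ := Filter.eventually_atTop.1 evn
  refine ⟨K, ?_⟩
  intro k hk
  obtain ⟨h1, h2, h3, h4, h5⟩ := hK k hk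
  have hk0 : (0 : ℝ) < k := by linarith
  have hlog0 : 0 ≤ Real.log k := Real.log_natCast_nonneg k
  rw [Real.norm_of_nonneg hlog0, Real.norm_of_nonneg (by positivity)] at h1
  set X := ⌊(k : ℝ) ^ α⌋₊ with hX
  set L := Nat.clog 2 k with hL
  have hXle : (X : ℝ) ≤ (k : ℝ) ^ α := Nat.floor_le (by positivity)
  have hXlt : (k : ℝ) ^ α < X + 1 := Nat.lt_floor_add_one _
  have hk1 : (1 : ℝ) ≤ k := by linarith
  have hkα : (k : ℝ) ^ α ≤ k := by
    calc (k : ℝ) ^ α ≤ (k : ℝ) ^ (1 : ℝ) := Real.rpow_le_rpow_of_exponent_le hk1 (by linarith)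
      _ = k := Real.rpow_one _
  have hXk : X ≤ k := by exact_mod_cast hXle.trans hkα
  have hkL : k ≤ 2 ^ L := Nat.le_pow_clog (by norm_num) k
  have hX15 : (15 : ℝ) < X := by linarith
  have hX15' : 15 < X := by exact_mod_cast hX15
  have hLle : (L : ℝ) ≤ 1 + 2 * Real.log k := by
    have hk2 : 1 < k := by
      have : (1 : ℝ) < k := by linarith
      exact_mod_cast this
    have h6 : 2 ^ (L - 1) < k := Nat.pow_pred_clog_lt_self (by norm_num) hk2
    have h7 : ((2 : ℝ)) ^ (L - 1) ≤ k := by exact_mod_cast h6.le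
    have h8 := Real.log_le_log (by positivity) h7
    rw [Real.log_pow] at h8
    have h9 := Real.log_two_gt_d9
    have h10 : (L : ℝ) - 1 ≤ ((L - 1 : ℕ) : ℝ) := by
      have : L ≤ (L - 1) + 1 := by omega
      have : (L : ℝ) ≤ ((L - 1 : ℕ) : ℝ) + 1 := by exact_mod_cast this
      linarith
    have h11 : (0 : ℝ) ≤ ((L - 1 : ℕ) : ℝ) := by positivity
    nlinarith
  have hX2 : (X : ℝ) ^ 2 ≤ (k : ℝ) ^ (2 * α) := by
    calc (X : ℝ) ^ 2 ≤ ((k : ℝ) ^ α) ^ 2 := by gcongr
      _ = (k : ℝ) ^ (2 * α) := by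
          rw [← Real.rpow_natCast, ← Real.rpow_mul hk0.le]
          congr 1
          push_cast
          ring
  have hprod : (k : ℝ) ^ (2 * α) * (k : ℝ) ^ δ = k := by
    rw [← Real.rpow_add hk0, hδ]
    rw [show 2 * α + (1 - 2 * α) = 1 by ring, Real.rpow_one]
  have hk2α : 1 ≤ (k : ℝ) ^ (2 * α) := Real.one_le_rpow hk1 (by linarith)
  have hcond : L * X ^ 2 + 1 + L ≤ k := by
    have h6 : (L : ℝ) ≤ 3 / 16 * (k : ℝ) ^ δ := by linarith
    have h7 : (L : ℝ) * (X : ℝ) ^ 2 ≤ 3 / 16 * k := by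
      calc (L : ℝ) * (X : ℝ) ^ 2 ≤ (3 / 16 * (k : ℝ) ^ δ) * (k : ℝ) ^ (2 * α) := by gcongr
        _ = 3 / 16 * ((k : ℝ) ^ (2 * α) * (k : ℝ) ^ δ) := by ring
        _ = 3 / 16 * k := by rw [hprod]
    have h8 : (L : ℝ) ≤ 3 / 16 * k := by
      have : (k : ℝ) ^ δ ≤ k := by
        nlinarith [hprod, hk2α, Real.rpow_nonneg hk0.le δ]
      linarith
    have h9 : (L : ℝ) * (X : ℝ) ^ 2 + 1 + L ≤ k := by linarith
    exact_mod_cast h9
  have hmain := lower_fin X L k (by omega) (hXk.trans hkL) hcond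
  have hA := hC (X - 1) (by omega)
  have h6 : Real.log ((k : ℝ) ^ α / 2) ≤ Real.log ((X - 1 : ℕ) : ℝ) := by
    apply Real.log_le_log (by positivity)
    rw [Nat.cast_sub (by omega)]
    push_cast
    linarith
  rw [Real.log_div (by positivity) (by norm_num), Real.log_rpow hk0] at h6
  have h7 : C + Real.log 2 ≤ (α - c) * Real.log k := by
    rw [div_le_iff₀ (by linarith)] at h4
    linarith
  linarith

end Pool.Agent.Y731.CM
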