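import Pool.Agent.Y731.CM.Hall

set_option autoImplicit false

namespace Pool.Agent.Y731.CM

open Finset hiding val
open Pool.Agent.Results.MP_cc5630_nt.Theta

/-- The multiples of `p` up to `k`. -/
def mult (k p : ℕ) : Finset ℕ := (range (k / p)).image (fun m => p * (m + 1))

theorem mem_mult {k p n : ℕ} : n ∈ mult k p ↔ ∃ m, m < k / p ∧ p * (m + 1) = n := by
  simp [mult]

theorem mem_mult' {k p n : ℕ} (hn : 0 < n) (hp : 0 < p) : n ∈ mult k p ↔ p ∣ n ∧ n ≤ k := by
  rw [mem_mult]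
  constructor
  · rintro ⟨m, hm, rfl⟩
    refine ⟨dvd_mul_right _ _, ?_⟩
    calc p * (m + 1) ≤ p * (k / p) := Nat.mul_le_mul_left _ hm
      _ ≤ k := Nat.mul_div_le k p
  · rintro ⟨⟨m, rfl⟩, h⟩
    have hm : 0 < m := Nat.pos_of_mul_pos_left hn |> fun h => by
      rcases Nat.eq_zero_or_pos m with h0 | h0
      · subst h0; simp at hn
      · exact h0
    refine ⟨m - 1, ?_, ?_⟩
    · have : m ≤ k / p := (Nat.le_div_iff_mul_le hp).2 (by rw [mul_comm]; exact h)
      omega
    · congr 1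
      omega

theorem pos_of_mem_mult {k p n : ℕ} (hp : 0 < p) (h : n ∈ mult k p) : 0 < n := by
  obtain ⟨m, _, rfl⟩ := mem_mult.1 h
  positivity

theorem mult_sum (k p : ℕ) (hp : 0 < p) :
    ∑ n ∈ mult k p, (1 : ℝ) / n = (∑ i ∈ range (k / p), (1 : ℝ) / (i + 1)) / p := by
  unfold mult
  rw [Finset.sum_image, Finset.sum_div]
  · apply Finset.sum_congr rfl
    intro m _
    have : (p : ℝ) ≠ 0 := by exact_mod_cast hp.ne'
    push_cast
    field_simp
  · intro a _ b _ h
    have := Nat.eq_of_mul_eq_mul_left hp h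
    omega

theorem harm_lower (m : ℕ) : Real.log (m + 1) ≤ ∑ i ∈ range m, (1 : ℝ) / (i + 1) := by
  have h2 := log_add_one_le_harmonic m
  refine le_trans (le_of_eq (by push_cast; rfl)) (h2.trans (le_of_eq ?_))
  simp [harmonic]

theorem harm_upper (m : ℕ) : ∑ i ∈ range m, (1 : ℝ) / (i + 1) ≤ 1 + Real.log m := by
  have h2 := harmonic_le_one_add_log m
  have h3 : (harmonic m : ℝ) = ∑ i ∈ range m, (1 : ℝ) / (i + 1) := by simp [harmonic]
  rw [h3] at h2
  exact h2

theorem mult_disj {k y : ℕ} (hy : k ≤ y ^ 2) (P : Finset ℕ) (hP : ∀ p ∈ P, p.Prime ∧ y < p) :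
    Set.PairwiseDisjoint (↑P) (mult k) := by
  intro p hp q hq hpq
  have hp' := hP p (Finset.mem_coe.1 hp)
  have hq' := hP q (Finset.mem_coe.1 hq)
  change Disjoint (mult k p) (mult k q)
  rw [Finset.disjoint_left]
  intro n hn hn'
  have hn0 := pos_of_mem_mult hp'.1.pos hn
  obtain ⟨h1, h2⟩ := (mem_mult' hn0 hp'.1.pos).1 hn
  obtain ⟨h3, _⟩ := (mem_mult' hn0 hq'.1.pos).1 hn'
  have hc : Nat.Coprime p q := (Nat.coprime_primes hp'.1 hq'.1).2 hpq
  have h4 := Nat.le_of_dvd hn0 (hc.mul_dvd_of_dvd_of_dvd h1 h3)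
  have h5 : (y + 1) * (y + 1) ≤ p * q := Nat.mul_le_mul hp'.2 hq'.2
  nlinarith

/-- The saving in the upper bound. -/
noncomputable def DD (k y : ℕ) : ℝ :=
  ∑ p ∈ (Ioc y k).filter Nat.Prime, Real.log ((k : ℝ) / p) / p

theorem upper_sum (k y : ℕ) (hk : 1 ≤ k) (hy : (k : ℝ) * (1 + Real.log k) ≤ (y : ℝ) ^ 2)
    (S : Finset ℕ) (hS : IsIrreducible S) (hc : S.card = k) :
    ∑ n ∈ S, (1 : ℝ) / n ≤ 3 + Real.log k - DD k y := by
  classical
  have hlogk : 0 ≤ Real.log k := Real.log_natCast_nonneg k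
  have hk0 : (0 : ℝ) < k := by exact_mod_cast hk
  have hky : k ≤ y ^ 2 := by
    have : (k : ℝ) ≤ (y : ℝ) ^ 2 := by nlinarith
    exact_mod_cast this
  have hy0 : 0 < y := by
    rcases Nat.eq_zero_or_pos y with h | h
    · subst h
      simp at hky
      omega
    · exact h
  have hy0' : (0 : ℝ) < y := by exact_mod_cast hy0
  set S1 := S.filter (· ≤ k) with hS1
  set S2 := S.filter (¬ · ≤ k) with hS2
  have hsplit : ∑ n ∈ S, (1 : ℝ) / n = ∑ n ∈ S1, (1 : ℝ) / n + ∑ n ∈ S2, (1 : ℝ) / n :=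
    (Finset.sum_filter_add_sum_filter_not S (· ≤ k) _).symm
  have h2 : ∑ n ∈ S2, (1 : ℝ) / n ≤ 1 := by
    calc ∑ n ∈ S2, (1 : ℝ) / n ≤ ∑ n ∈ S2, (1 : ℝ) / k := by
          apply Finset.sum_le_sum
          intro n hn
          have := (Finset.mem_filter.1 hn).2
          apply one_div_le_one_div_of_le hk0
          exact_mod_cast (not_le.1 this).le
      _ = S2.card * (1 / k) := by rw [Finset.sum_const, nsmul_eq_mul]
      _ ≤ k * (1 / k) := by
          have : S2.card ≤ k := hc ▸ Finset.card_filter_le _ _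
          gcongr
      _ = 1 := by field_simp
  set PU := (Ioc y k).filter Nat.Prime with hPU
  set PV := (S.biUnion Nat.primeFactors).filter (y < ·) with hPV
  have hPUp : ∀ p ∈ PU, p.Prime ∧ y < p := by
    intro p hp
    rw [hPU, Finset.mem_filter, Finset.mem_Ioc] at hp
    exact ⟨hp.2, hp.1.1⟩
  have hPVp : ∀ p ∈ PV, p.Prime ∧ y < p := by
    intro p hp
    rw [hPV, Finset.mem_filter, Finset.mem_biUnion] at hp
    obtain ⟨⟨n, _, hn⟩, h⟩ := hp
    exact ⟨Nat.prime_of_mem_primeFactors hn, h⟩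
  set U := PU.biUnion (mult k) with hU
  set V := PV.biUnion (mult k) with hV
  have hUsub : U ⊆ Icc 1 k := by
    intro n hn
    obtain ⟨p, hp, hn⟩ := Finset.mem_biUnion.1 hn
    have hn0 := pos_of_mem_mult (hPUp p hp).1.pos hn
    rw [Finset.mem_Icc]
    exact ⟨hn0, ((mem_mult' hn0 (hPUp p hp).1.pos).1 hn).2⟩
  have hS1sub : S1 ⊆ (Icc 1 k \ U) ∪ V := by
    intro n hn
    obtain ⟨hnS, hnk⟩ := Finset.mem_filter.1 hn
    have hn1 := hS.1.1 n hnS
    rw [Finset.mem_union, Finset.mem_sdiff, Finset.mem_Icc]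
    by_cases hnU : n ∈ U
    · right
      obtain ⟨p, hp, hnp⟩ := Finset.mem_biUnion.1 hnU
      have hpp := hPUp p hp
      have h := (mem_mult' (by omega) hpp.1.pos).1 hnp
      refine Finset.mem_biUnion.2 ⟨p, ?_, hnp⟩
      rw [hPV, Finset.mem_filter, Finset.mem_biUnion]
      exact ⟨⟨n, hnS, Nat.mem_primeFactors.2 ⟨hpp.1, h.1, by omega⟩⟩, hpp.2⟩
    · left
      exact ⟨⟨by omega, hnk⟩, hnU⟩
  have hUsum : DD k y ≤ ∑ n ∈ U, (1 : ℝ) / n := by
    rw [hU, Finset.sum_biUnion (mult_disj hky PU hPUp)]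
    unfold DD
    apply Finset.sum_le_sum
    intro p hp
    have hpp := hPUp p hp
    have hp0 : (0 : ℝ) < p := by exact_mod_cast hpp.1.pos
    rw [mult_sum k p hpp.1.pos]
    apply div_le_div_of_nonneg_right _ hp0.le
    refine le_trans ?_ (harm_lower (k / p))
    apply Real.log_le_log (by positivity)
    have h5 := (Nat.lt_floor_add_one ((k : ℝ) / p)).le
    rwa [Nat.floor_div_natCast, Nat.floor_natCast] at h5
  have hVsum : ∑ n ∈ V, (1 : ℝ) / n ≤ 1 := by
    rw [hV, Finset.sum_biUnion (mult_disj hky PV hPVp)]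
    have hsim := simpson S hS
    rw [hc] at hsim
    have h1 : ∑ p ∈ PV, ((p - 1 : ℕ) : ℝ) ≤ k := by
      have : ∑ p ∈ PV, (p - 1) ≤ k :=
        (Finset.sum_le_sum_of_subset (Finset.filter_subset _ _)).trans hsim.le
      exact_mod_cast this
    calc ∑ p ∈ PV, ∑ n ∈ mult k p, (1 : ℝ) / n
        ≤ ∑ p ∈ PV, ((p - 1 : ℕ) : ℝ) * ((1 + Real.log k) / (y : ℝ) ^ 2) := by
          apply Finset.sum_le_sum
          intro p hp
          have hpp := hPVp p hp
          have hp0 : (0 : ℝ) < p := by exact_mod_cast hpp.1.pos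
          rw [mult_sum k p hpp.1.pos]
          have h3 : ∑ i ∈ range (k / p), (1 : ℝ) / (i + 1) ≤ 1 + Real.log k := by
            refine (harm_upper (k / p)).trans ?_
            rcases Nat.eq_zero_or_pos (k / p) with h0 | h0
            · rw [h0]
              simp [hlogk]
            · have : Real.log ((k / p : ℕ) : ℝ) ≤ Real.log k := by
                apply Real.log_le_log (by exact_mod_cast h0)
                exact_mod_cast Nat.div_le_self k p
              linarith
          have h4 : (y : ℝ) ^ 2 ≤ ((p - 1 : ℕ) : ℝ) * p := by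
            have : y ^ 2 ≤ (p - 1) * p := by
              rw [pow_two]
              exact Nat.mul_le_mul (by have := hpp.2; omega) hpp.2.le
            exact_mod_cast this
          calc (∑ i ∈ range (k / p), (1 : ℝ) / (i + 1)) / p ≤ (1 + Real.log k) / p := by gcongr
            _ = ((1 + Real.log k) / (y : ℝ) ^ 2) * ((y : ℝ) ^ 2 / p) := by
                field_simp
            _ ≤ ((1 + Real.log k) / (y : ℝ) ^ 2) * ((p - 1 : ℕ) : ℝ) := by
                apply mul_le_mul_of_nonneg_left _ (by positivity)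
                rw [div_le_iff₀ hp0]
                exact h4
            _ = _ := by ring
      _ = (∑ p ∈ PV, ((p - 1 : ℕ) : ℝ)) * ((1 + Real.log k) / (y : ℝ) ^ 2) := by
          rw [Finset.sum_mul]
      _ ≤ k * ((1 + Real.log k) / (y : ℝ) ^ 2) := by
          apply mul_le_mul_of_nonneg_right h1 (by positivity)
      _ = (k * (1 + Real.log k)) / (y : ℝ) ^ 2 := by ring
      _ ≤ 1 := by
          rw [div_le_one (by positivity)]
          exact hy
  have hIcc : ∑ n ∈ Icc 1 k, (1 : ℝ) / n ≤ 1 + Real.log k := by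
    have h := harmonic_le_one_add_log k
    rw [harmonic_eq_sum_Icc] at h
    push_cast at h
    simpa [one_div] using h
  have h1 : ∑ n ∈ S1, (1 : ℝ) / n ≤ 2 + Real.log k - DD k y := by
    calc ∑ n ∈ S1, (1 : ℝ) / n ≤ ∑ n ∈ (Icc 1 k \ U) ∪ V, (1 : ℝ) / n := by
          apply Finset.sum_le_sum_of_subset_of_nonneg hS1sub
          intro n _ _
          positivity
      _ ≤ ∑ n ∈ Icc 1 k \ U, (1 : ℝ) / n + ∑ n ∈ V, (1 : ℝ) / n := by
          rw [← Finset.sum_union_inter]
          have : 0 ≤ ∑ n ∈ (Icc 1 k \ U) ∩ V, (1 : ℝ) / n :=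
            Finset.sum_nonneg (fun n _ => by positivity)
          linarith
      _ ≤ (1 + Real.log k - DD k y) + 1 := by
          have h3 := Finset.sum_sdiff (f := fun n : ℕ => (1 : ℝ) / n) hUsub
          linarith
      _ = _ := by ring
  rw [hsplit]
  linarith

end Pool.Agent.Y731.CM
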